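import Mathlib
import Pool.Agent.H290R3.HHG.Defs
import Pool.Agent.H290R3.HHG.Struct
import Pool.Agent.Y79.HM.Dih

/-!
# MP_7eef47_al: an isometrically embedded infinite dihedral almost malnormal subgroup

There are a hierarchically hyperbolic group `G` with a finite generating set `T` and an infinite
dihedral subgroup `H` of `G` (so `H` is virtually infinite cyclic) such that

* `H` is generated by `T ∩ H`, and the inclusion of `H` into `G` is isometric for the word metrics
  of `T ∩ H` and `T`;
* `H ∩ g H g⁻¹` has at most two elements for every `g` outside `H` (so `H` is almost malnormal);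
* `H` is not strongly quasiconvex; for every `n` there is a `(3, 1)`-quasi-geodesic with both end
  points in `H`, of length `3 n + 1`, with a point at distance at least `n` from `H`.
-/

set_option autoImplicit false

open Pool.Agent.H290R3.HHGDefs

/-- There are a hierarchically hyperbolic group `G` and an isometrically embedded infinite dihedral
subgroup `H`, with `|H ∩ g H g⁻¹| ≤ 2` for all `g` outside `H`, which is not strongly quasiconvex:
`(3, 1)`-quasi-geodesics with end points in `H` leave the neighbourhoods of `H` at linear speed. -/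
theorem Pool.Agent.Results.MP_7eef47_al.UndistortedDihedral.result :
    ∃ (G : Type) (_ : Group G) (T : Set G), T.Finite ∧ Subgroup.closure T = ⊤ ∧
      Nonempty (HHG G T) ∧
      ∃ H : Subgroup G, H.FG ∧ AlmostMalnormal H ∧ ¬ StronglyQuasiconvex T H ∧
        Nonempty (H ≃* DihedralGroup 0) ∧
        Subgroup.closure (T ∩ (H : Set G)) = H ∧
        (∀ x ∈ H, ∀ y ∈ H, wordDist (T ∩ (H : Set G)) x y = wordDist T x y) ∧
        (∀ g : G, g ∉ H → {x : G | x ∈ H ∧ ∃ h ∈ H, x = g * h * g⁻¹}.encard ≤ 2) ∧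
        ∀ n : ℕ, ∃ p : ℕ → G, IsQuasiGeodesic T 3 1 (3 * n + 1) p ∧ p 0 ∈ H ∧
          p (3 * n + 1) ∈ H ∧ ∀ h ∈ H, n ≤ wordDist T (p n) h :=
  ⟨Pool.Agent.H290R3.HHG.QG, inferInstance, Pool.Agent.H290R3.HHG.gens,
    Pool.Agent.H290R3.HHG.gens_finite, Pool.Agent.H290R3.HHG.closure_gens,
    ⟨Pool.Agent.H290R3.HHG.hhg⟩, Pool.Agent.H290R3.HHG.HH, Pool.Agent.H290R3.HHG.HH_fg,
    Pool.Agent.H290R3.HHG.almostMalnormal_HH, Pool.Agent.H290R3.HHG.not_sqc,
    Pool.Agent.Y79.HM.dihedral, Pool.Agent.Y79.HM.closure_inter,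
    fun x hx y hy => Pool.Agent.Y79.HM.isometric
      (Pool.Agent.H290R3.HHG.HH.mul_mem (Pool.Agent.H290R3.HHG.HH.inv_mem hx) hy),
    fun _ hg => Pool.Agent.Y79.HM.inter_conj hg, Pool.Agent.Y79.HM.far⟩
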